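import Pool.Agent.R41.CycSatLower
import Pool.Agent.R41.CycSatUpper

/-!
# MP_0fee77_co: `sat(n, C_[4,r])` is smaller than `sat(n, C_[4,∞))` for infinitely many `n`

For every `r ≥ 6` and every `k` and `n = r + 1 + 4 k` we show
`sat(n, C_[4,r]) < sat(n, C_[4,∞))`. Hence the statement of the problem fails (for `s = 4`).
-/

set_option autoImplicit false

namespace Pool.Agent.Results.MP_0fee77_co.Disproof

open SimpleGraph

/-- `G` has no cycle whose length lies in `I`, i.e. no subgraph isomorphic to a member of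
`C_I = {C_m : m ∈ I}` (used for `I ⊆ [3, ∞)`; `cycleGraph m` is the cycle `C_m` on `Fin m`). -/
def IsFree (I : Set ℕ) {n : ℕ} (G : SimpleGraph (Fin n)) : Prop :=
  ∀ m ∈ I, ¬ (cycleGraph m).IsContained G

/-- `G` is `C_I`-saturated: it has no subgraph isomorphic to a member of `C_I`, but adding any
missing edge creates such a subgraph. -/
def IsSaturated (I : Set ℕ) {n : ℕ} (G : SimpleGraph (Fin n)) : Prop :=
  IsFree I G ∧ ∀ x y : Fin n, x ≠ y → ¬ G.Adj x y → ¬ IsFree I (G ⊔ edge x y)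

/-- The saturation number `sat(n, C_I)`: the minimum number of edges of a `C_I`-saturated graph on
`n` vertices. -/
noncomputable def sat (n : ℕ) (I : Set ℕ) : ℕ :=
  sInf {e : ℕ | ∃ G : SimpleGraph (Fin n), IsSaturated I G ∧ G.edgeSet.ncard = e}

/-- There is a `C_I`-saturated graph on `n` vertices, for `I ⊆ [3, ∞)`. -/
lemma exists_saturated (n : ℕ) (I : Set ℕ) (hI : ∀ m ∈ I, 3 ≤ m) :
    ∃ G : SimpleGraph (Fin n), IsSaturated I G := by
  have hbot : IsFree I (⊥ : SimpleGraph (Fin n)) := by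
    intro m hm hc
    have := hI m hm
    rw [cycleGraph_isContained_iff (by omega)] at hc
    obtain ⟨v, p, hp, hl⟩ := hc
    have h1 := p.adj_getVert_succ (i := 0) (by omega)
    simp at h1
  obtain ⟨G, hG⟩ := (Set.toFinite {G : SimpleGraph (Fin n) | IsFree I G}).exists_maximal
    ⟨⊥, hbot⟩
  refine ⟨G, hG.1, fun x y hxy hnadj hfree => hnadj ?_⟩
  have h1 : G ⊔ edge x y ≤ G := hG.2 hfree le_sup_left
  apply h1
  simp [edge_adj, hxy]

lemma lower (n : ℕ) (hn : 1 ≤ n) : 5 * n ≤ 4 * sat n (Set.Ici 4) + 6 := by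
  have hne : {e : ℕ | ∃ G : SimpleGraph (Fin n), IsSaturated (Set.Ici 4) G ∧
      G.edgeSet.ncard = e}.Nonempty := by
    obtain ⟨G, hG⟩ := exists_saturated n (Set.Ici 4) (fun m hm => by
      rw [Set.mem_Ici] at hm; omega)
    exact ⟨_, G, hG, rfl⟩
  obtain ⟨G, hG, he⟩ := Nat.sInf_mem hne
  have : Nonempty (Fin n) := ⟨⟨0, by omega⟩⟩
  have := Pool.Agent.R41.five_le (G := G) (fun m hm => hG.1 m hm) (by
    intro x y hxy hadj
    have := hG.2 x y hxy hadj
    unfold IsFree at this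
    push Not at this
    exact this)
  rw [Fintype.card_fin] at this
  unfold sat
  rw [← he]
  exact this

lemma upper (r k : ℕ) (hr : 6 ≤ r) : sat (r + 1 + 4 * k) (Set.Icc 4 r) ≤ r + 1 + 5 * k := by
  have hsat : IsSaturated (Set.Icc 4 r) (Pool.Agent.R41.gad (r + 1) k (by omega)) := by
    refine ⟨?_, ?_⟩
    · rintro m ⟨h1, h2⟩
      exact Pool.Agent.R41.gad_free h1 (by omega)
    · intro x y hxy hadj
      wlog hlt : x.val < y.val generalizing x y
      · have h := this y x hxy.symm (fun h => hadj h.symm) (by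
          have : x.val ≠ y.val := fun h => hxy (Fin.ext h)
          omega)
        rwa [edge_comm] at h
      obtain ⟨L, h1, h2, h3⟩ := Pool.Agent.R41.gad_path (hq := by omega) (by omega) x y hlt hadj
      intro hfree
      exact hfree (L + 1) ⟨by omega, by omega⟩ (h3.cycle hxy (by omega))
  have h : sat (r + 1 + 4 * k) (Set.Icc 4 r) ≤
      (Pool.Agent.R41.gad (r + 1) k (by omega)).edgeSet.ncard := Nat.sInf_le ⟨_, hsat, rfl⟩
  exact h.trans Pool.Agent.R41.gad_edges

/-- **Main result.** For every `r ≥ 6` and all `n = r + 1 + 4 k` (`k = 0, 1, 2, …`) we have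
`sat(n, C_[4,r]) < sat(n, C_[4,∞))`. Consequently the assertion of the problem is false. -/
theorem result :
    (∀ r k : ℕ, 6 ≤ r →
      sat (r + 1 + 4 * k) (Set.Icc 4 r) < sat (r + 1 + 4 * k) (Set.Ici 4)) ∧
    ¬ ∃ (r : ℕ → ℕ) (n₀ : ℕ → ℕ → ℕ), ∀ s ≥ 4, ∀ r' ≥ r s, ∀ n ≥ n₀ s r',
        sat n (Set.Icc s r') = sat n (Set.Ici s) := by
  have main : ∀ r k : ℕ, 6 ≤ r →
      sat (r + 1 + 4 * k) (Set.Icc 4 r) < sat (r + 1 + 4 * k) (Set.Ici 4) := by
    intro r k hr
    have h1 := lower (r + 1 + 4 * k) (by omega)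
    have h2 := upper r k hr
    omega
  refine ⟨main, ?_⟩
  rintro ⟨r, n₀, h⟩
  have h1 := main (max (r 4) 6) (n₀ 4 (max (r 4) 6)) (le_max_right _ _)
  have h2 := h 4 le_rfl (max (r 4) 6) (le_max_left _ _)
    (max (r 4) 6 + 1 + 4 * n₀ 4 (max (r 4) 6)) (by omega)
  omega

end Pool.Agent.Results.MP_0fee77_co.Disproof
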